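import Mathlib
import Pool.Agent.H749R6.CM.Pig

/-! Exactly `m` primes just above a real number: the local step. -/

set_option autoImplicit false

namespace Pool.Agent.H749R6.PW

open Finset Filter Topology
open Pool.Agent.H749R6.CM (ncard_primes pc_lt gg gg_inj)

/-- exactly `m` primes just above `y`, none just below -/
def Q (lam Lam : ℝ) (m : ℕ) (y : ℝ) : Prop :=
  {p : ℕ | p.Prime ∧ y < p ∧ (p : ℝ) ≤ y + lam * Real.log y}.ncard = m ∧
    ∀ p : ℕ, p.Prime → y - Lam * Real.log y < p → y < p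

/-- the lower edge -/
noncomputable def aa (lam : ℝ) (k : ℕ) : ℝ := k - lam * Real.log k

theorem loc (lam Lam : ℝ) (m : ℕ) (hlam : 0 < lam) (hLam : 0 ≤ Lam) : ∃ n₀ : ℕ, ∀ n : ℕ, n₀ ≤ n →
    Nat.primeCounting ⌊(n : ℝ) + lam / 2 * Real.log n⌋₊ = Nat.primeCounting n + m →
    Nat.primeCounting n = Nat.primeCounting ⌊(n : ℝ) - 2 * (Lam + lam) * Real.log n⌋₊ →
    ∀ y : ℝ, aa lam (gg lam n) + 1 / 4 < y → y < aa lam (gg lam n) + 3 / 4 → Q lam Lam m y := by
  have e1 : ∀ᶠ n : ℕ in atTop, 2 / lam ≤ Real.log n :=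
    (Real.tendsto_log_atTop.comp tendsto_natCast_atTop_atTop).eventually_ge_atTop _
  have e2 : ∀ᶠ n : ℕ in atTop, Real.log n ≤ (1 / (16 * (lam + 1) ^ 2)) * n := by
    have h := (Real.isLittleO_log_id_atTop.def (show 0 < 1 / (16 * (lam + 1) ^ 2) by positivity))
    have h' := tendsto_natCast_atTop_atTop.eventually h
    filter_upwards [h'] with n hn
    simp only [id] at hn
    rw [Real.norm_of_nonneg (Real.log_natCast_nonneg n),
      Real.norm_of_nonneg (Nat.cast_nonneg n)] at hn
    exact hn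
  obtain ⟨n₀, h₀⟩ := eventually_atTop.1 (e1.and (e2.and (eventually_ge_atTop 1)))
  refine ⟨n₀, fun n hn h1 h2 y hy1 hy2 => ?_⟩
  obtain ⟨g1, g2, g3⟩ := h₀ n hn
  obtain ⟨k, hk⟩ : ∃ k, k = gg lam n := ⟨_, rfl⟩
  have hk' : k = ⌊(n : ℝ) + lam / 2 * Real.log n⌋₊ := hk
  rw [← hk'] at h1
  rw [← hk] at hy1 hy2
  unfold aa at hy1 hy2
  have hn0 : (0 : ℝ) < n := by exact_mod_cast g3
  obtain ⟨L, hL⟩ : ∃ L, L = Real.log n := ⟨_, rfl⟩
  rw [← hL] at g1 g2 h2 hk'
  have hlL : 2 ≤ lam * L := by
    rw [div_le_iff₀ hlam] at g1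
    linarith
  have hL0 : 0 < L := by
    by_contra hcon
    push Not at hcon
    nlinarith
  have hg2 : 16 * (lam + 1) ^ 2 * L ≤ n := by
    have : (0 : ℝ) < 16 * (lam + 1) ^ 2 := by positivity
    rw [one_div, inv_mul_eq_div, le_div_iff₀ this] at g2
    linarith
  have hk1 : (k : ℝ) ≤ n + lam / 2 * L := by
    rw [hk']
    exact Nat.floor_le (by positivity)
  have hk2 : (n : ℝ) + lam / 2 * L < k + 1 := by
    rw [hk']
    exact Nat.lt_floor_add_one _
  have hnk : n ≤ k := by
    rw [hk']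
    apply Nat.le_floor
    nlinarith
  have hnkR : (n : ℝ) ≤ k := by exact_mod_cast hnk
  have hk0 : (0 : ℝ) < k := by linarith
  have hlogk1 : L ≤ Real.log k := by
    rw [hL]
    exact Real.log_le_log hn0 hnkR
  have hlogk2 : lam * Real.log k ≤ lam * L + 1 / 32 := by
    have h3 : Real.log k - L ≤ k / n - 1 := by
      rw [hL, ← Real.log_div hk0.ne' hn0.ne']
      exact Real.log_le_sub_one_of_pos (by positivity)
    have h4 : (k : ℝ) / n - 1 ≤ lam / 2 * L / n := by
      rw [div_sub_one hn0.ne']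
      gcongr
      linarith
    have h5 : lam * (lam / 2 * L / n) ≤ 1 / 32 := by
      have : lam * (lam / 2 * L / n) = (lam ^ 2 * L / 2) / n := by ring
      rw [this, div_le_iff₀ hn0]
      nlinarith [mul_pos hlam hL0, mul_pos hL0 hlam]
    have h6 : lam * (Real.log k - L) ≤ lam * (lam / 2 * L / n) :=
      mul_le_mul_of_nonneg_left (h3.trans h4) hlam.le
    linarith
  have hlogk3 : lam * L ≤ lam * Real.log k := mul_le_mul_of_nonneg_left hlogk1 hlam.le
  have hlLn : 16 * (lam * L) ≤ n := by nlinarith [mul_pos hlam hL0, mul_pos hL0 (mul_pos hlam hlam)]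
  have hyn : y < n := by linarith
  have hyn2 : n - lam * L < y := by linarith
  have hy0 : (n : ℝ) / 2 < y := by linarith
  have hypos : 0 < y := by linarith
  have hlogy : Real.log y ≤ L := by
    rw [hL]
    exact Real.log_le_log hypos hyn.le
  have hlogy0 : lam * Real.log y ≤ lam * L := mul_le_mul_of_nonneg_left hlogy hlam.le
  have hlogy1 : lam * Real.log k - 1 / 4 ≤ lam * Real.log y := by
    have h3 : Real.log k - Real.log y ≤ k / y - 1 := by
      rw [← Real.log_div hk0.ne' hypos.ne']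
      exact Real.log_le_sub_one_of_pos (by positivity)
    have h4 : (k : ℝ) / y - 1 ≤ lam * L / (n / 2) := by
      rw [div_sub_one hypos.ne']
      apply div_le_div₀ (by positivity) (by linarith) (by positivity) hy0.le
    have h5 : lam * (lam * L / (n / 2)) ≤ 1 / 4 := by
      have : lam * (lam * L / (n / 2)) = (2 * lam ^ 2 * L) / n := by
        field_simp
      rw [this, div_le_iff₀ hn0]
      nlinarith [mul_pos hlam hL0, mul_pos hL0 (mul_pos hlam hlam)]
    have h6 : lam * (Real.log k - Real.log y) ≤ lam * (lam * L / (n / 2)) :=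
      mul_le_mul_of_nonneg_left (h3.trans h4) hlam.le
    linarith
  have hup1 : (k : ℝ) < y + lam * Real.log y := by linarith
  have hup2 : y + lam * Real.log y < k + 1 := by linarith
  -- primes above the lower edge of the free region exceed `n`
  have hgt : ∀ p : ℕ, p.Prime → (n : ℝ) - 2 * (Lam + lam) * L < p → n < p := by
    intro p hp hp1
    by_contra hcon
    push Not at hcon
    have h3 : ⌊(n : ℝ) - 2 * (Lam + lam) * L⌋₊ < p := by
      rw [Nat.floor_lt' hp.ne_zero]
      exact hp1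
    have h4 := pc_lt hp h3 hcon
    omega
  have hLL : 0 ≤ Lam * L := by positivity
  refine ⟨?_, ?_⟩
  · have hset : {p : ℕ | p.Prime ∧ y < p ∧ (p : ℝ) ≤ y + lam * Real.log y} =
        {p : ℕ | p.Prime ∧ n < p ∧ p ≤ k} := by
      ext p
      constructor
      · rintro ⟨hp, hp1, hp2⟩
        refine ⟨hp, hgt p hp (by nlinarith), ?_⟩
        have h4 : (p : ℝ) < k + 1 := by linarith
        have h5 : p < k + 1 := by exact_mod_cast h4
        omega
      · rintro ⟨hp, hp1, hp2⟩
        have h3 : (n : ℝ) < p := by exact_mod_cast hp1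
        have h4 : (p : ℝ) ≤ k := by exact_mod_cast hp2
        exact ⟨hp, by linarith, by linarith⟩
    rw [hset]
    have h3 := ncard_primes n k hnk
    omega
  · intro p hp hp1
    have h5 : Lam * Real.log y ≤ Lam * L := mul_le_mul_of_nonneg_left hlogy hLam
    have h3 : (n : ℝ) < p := by exact_mod_cast hgt p hp (by nlinarith)
    linarith

/-- the lower edges are well spaced -/
theorem aa_spaced (lam : ℝ) (hlam : 0 < lam) (k k' : ℕ) (hk : 2 * lam ≤ k) (hk0 : 0 < k)
    (h : k < k') : aa lam k + 3 / 4 ≤ aa lam k' + 1 / 4 := by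
  unfold aa
  have hk0' : (0 : ℝ) < k := by exact_mod_cast hk0
  have h1 : (k : ℝ) + 1 ≤ k' := by exact_mod_cast h
  have h2 : (0 : ℝ) < k' := by linarith
  have h3 : Real.log k' - Real.log k ≤ k' / k - 1 := by
    rw [← Real.log_div h2.ne' hk0'.ne']
    exact Real.log_le_sub_one_of_pos (by positivity)
  have h4 : lam * ((k' : ℝ) / k - 1) ≤ (k' - k) / 2 := by
    rw [div_sub_one hk0'.ne']
    have : lam * (((k' : ℝ) - k) / k) = (lam / k) * (k' - k) := by ring
    rw [this]
    have h5 : lam / k ≤ 1 / 2 := by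
      rw [div_le_iff₀ hk0']
      linarith
    nlinarith
  have h6 : lam * (Real.log k' - Real.log k) ≤ lam * ((k' : ℝ) / k - 1) :=
    mul_le_mul_of_nonneg_left h3 hlam.le
  linarith

end Pool.Agent.H749R6.PW
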