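import Mathlib
import Pool.Agent.H749R6.PW.Loc

/-! Blocks of exponents. -/

set_option autoImplicit false

namespace Pool.Agent.H749R6.PW

open MeasureTheory Filter Topology
open Pool.Agent.H749R6.CM (gg gg_inj)

/-- the good indices -/
def GK (lam Lam : ℝ) (m : ℕ) : Set ℕ :=
  {k | ∀ y : ℝ, aa lam k + 1 / 4 < y → y < aa lam k + 3 / 4 → Q lam Lam m y}

theorem blk
    (hpois : ∀ (lam Lam : ℝ) (m : ℕ), 0 < lam → 0 ≤ Lam → ∃ c : ℝ, 0 < c ∧ ∃ N₀ : ℕ, ∀ N : ℕ,
      N₀ ≤ N → c * N ≤ ({n : ℕ | n ∈ Finset.Icc 1 N ∧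
        Nat.primeCounting ⌊(n : ℝ) + lam * Real.log n⌋₊ = Nat.primeCounting n + m ∧
        Nat.primeCounting n = Nat.primeCounting ⌊(n : ℝ) - Lam * Real.log n⌋₊}.ncard : ℝ))
    (lam Lam : ℝ) (m : ℕ) (hlam : 0 < lam) (hLam : 0 ≤ Lam) :
    ∃ D : ℝ, 1 < D ∧ ∀ᶠ X : ℝ in atTop, ∃ K : Finset ℕ, X ≤ K.card ∧
      ∀ k ∈ K, k ∈ GK lam Lam m ∧ 2 * lam ≤ k ∧ 0 < k ∧ X ≤ aa lam k ∧ aa lam k + 1 ≤ D * X := by
  classical
  obtain ⟨c₀, hc₀, N₀, hN₀⟩ := hpois (lam / 2) (2 * (Lam + lam)) m (by positivity) (by positivity)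
  obtain ⟨n₀, hn₀⟩ := loc lam Lam m hlam hLam
  obtain ⟨c, hcd⟩ : ∃ c, c = min c₀ 1 := ⟨_, rfl⟩
  have hc : 0 < c := hcd ▸ lt_min hc₀ one_pos
  have hc1 : c ≤ 1 := hcd ▸ min_le_right _ _
  have hc2 : c ≤ c₀ := hcd ▸ min_le_left _ _
  have elog : ∀ᶠ z : ℝ in atTop, lam * Real.log z ≤ z / 4 := by
    have h := (Real.isLittleO_log_id_atTop.def (show 0 < 1 / (4 * lam) by positivity))
    filter_upwards [h, eventually_ge_atTop (1 : ℝ)] with z hz hz1
    simp only [id] at hz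
    rw [Real.norm_of_nonneg (Real.log_nonneg hz1), Real.norm_of_nonneg (by linarith)] at hz
    have := mul_le_mul_of_nonneg_left hz hlam.le
    have h2 : lam * (1 / (4 * lam) * z) = z / 4 := by field_simp
    linarith
  obtain ⟨Z, hZ⟩ := eventually_atTop.1 elog
  refine ⟨8 / c, ?_, ?_⟩
  · rw [lt_div_iff₀ hc]
    linarith
  filter_upwards [eventually_ge_atTop Z, eventually_ge_atTop (N₀ : ℝ), eventually_ge_atTop (n₀ : ℝ),
    eventually_ge_atTop lam, eventually_ge_atTop (2 : ℝ)] with X hX1 hX2 hX3 hX4 hX5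
  have hX0 : 0 < X := by linarith
  obtain ⟨N, hN⟩ : ∃ N, N = ⌊4 / c * X⌋₊ := ⟨_, rfl⟩
  have hNle : (N : ℝ) ≤ 4 / c * X := hN ▸ Nat.floor_le (by positivity)
  have hNlt : 4 / c * X < N + 1 := hN ▸ Nat.lt_floor_add_one _
  have hcX : c * (4 / c * X) = 4 * X := by field_simp
  have hcN : 4 * X - 1 ≤ c * N := by
    have := mul_lt_mul_of_pos_left hNlt hc
    nlinarith
  have hNX : 3 * X ≤ N := by
    have h1 : c * N ≤ 1 * N := mul_le_mul_of_nonneg_right hc1 (Nat.cast_nonneg _)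
    linarith
  have hNN : N₀ ≤ N := by
    have : (N₀ : ℝ) ≤ N := by linarith
    exact_mod_cast this
  have hcount := hN₀ N hNN
  obtain ⟨S, hS⟩ : ∃ S : Finset ℕ, S = (Finset.Icc 1 N).filter (fun n : ℕ =>
      Nat.primeCounting ⌊(n : ℝ) + lam / 2 * Real.log n⌋₊ = Nat.primeCounting n + m ∧
      Nat.primeCounting n = Nat.primeCounting ⌊(n : ℝ) - 2 * (Lam + lam) * Real.log n⌋₊) := ⟨_, rfl⟩
  have hSc : c * N ≤ S.card := by
    have h1 : c * N ≤ c₀ * N := mul_le_mul_of_nonneg_right hc2 (Nat.cast_nonneg _)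
    refine h1.trans (hcount.trans ?_)
    rw [← Set.ncard_coe_finset]
    apply Nat.cast_le.2
    apply Set.ncard_le_ncard _ (Finset.finite_toSet S)
    intro n hn
    rw [hS, Finset.mem_coe, Finset.mem_filter]
    exact hn
  obtain ⟨S', hS'⟩ : ∃ S' : Finset ℕ, S' = S.filter (fun n : ℕ => 2 * X < n) := ⟨_, rfl⟩
  have hS'c : X ≤ S'.card := by
    have h1 : S.card ≤ S'.card + (Finset.Icc 1 ⌊2 * X⌋₊).card := by
      refine le_trans (Finset.card_le_card ?_) (Finset.card_union_le _ _)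
      intro n hn
      rw [Finset.mem_union]
      by_cases h2 : 2 * X < n
      · left
        rw [hS', Finset.mem_filter]
        exact ⟨hn, h2⟩
      · right
        rw [hS, Finset.mem_filter, Finset.mem_Icc] at hn
        rw [Finset.mem_Icc]
        exact ⟨hn.1.1, Nat.le_floor (not_lt.1 h2)⟩
    rw [Nat.card_Icc, Nat.add_sub_cancel] at h1
    have h2 : (S.card : ℝ) ≤ S'.card + ⌊2 * X⌋₊ := by exact_mod_cast h1
    have h3 : ((⌊2 * X⌋₊ : ℕ) : ℝ) ≤ 2 * X := Nat.floor_le (by positivity)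
    linarith
  have hmem : ∀ n ∈ S', (1 ≤ n ∧ n ≤ N) ∧ 2 * X < n ∧
      Nat.primeCounting ⌊(n : ℝ) + lam / 2 * Real.log n⌋₊ = Nat.primeCounting n + m ∧
      Nat.primeCounting n = Nat.primeCounting ⌊(n : ℝ) - 2 * (Lam + lam) * Real.log n⌋₊ := by
    intro n hn
    rw [hS', Finset.mem_filter, hS, Finset.mem_filter, Finset.mem_Icc] at hn
    exact ⟨hn.1.1, hn.2, hn.1.2⟩
  refine ⟨S'.image (gg lam), ?_, ?_⟩
  · rw [Finset.card_image_of_injOn]
    · exact hS'c
    · intro n hn n' hn' h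
      rcases lt_trichotomy n n' with h1 | h1 | h1
      · exact absurd h (gg_inj lam hlam (hmem n hn).1.1 h1).ne
      · exact h1
      · exact absurd h (gg_inj lam hlam (hmem n' hn').1.1 h1).ne'
  · intro k hk
    rw [Finset.mem_image] at hk
    obtain ⟨n, hn, rfl⟩ := hk
    obtain ⟨⟨a1, a2⟩, a3, a4, a5⟩ := hmem n hn
    have a2' : (n : ℝ) ≤ N := by exact_mod_cast a2
    have hn0 : (0 : ℝ) < n := by linarith
    have hnn : n₀ ≤ n := by
      have : (n₀ : ℝ) ≤ n := by linarith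
      exact_mod_cast this
    have hlogn := hZ n (by linarith)
    have hlog0 : 0 ≤ Real.log n := Real.log_natCast_nonneg n
    have hk1 : (gg lam n : ℝ) ≤ n + lam / 2 * Real.log n := Nat.floor_le (by positivity)
    have hk2 : n ≤ gg lam n := by
      apply Nat.le_floor
      have : 0 ≤ lam / 2 * Real.log n := by positivity
      linarith
    have hk2' : (n : ℝ) ≤ gg lam n := by exact_mod_cast hk2
    have hlogk := hZ (gg lam n) (by linarith)
    have hlogk0 : 0 ≤ Real.log (gg lam n) := Real.log_natCast_nonneg _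
    refine ⟨hn₀ n hnn a4 a5, by linarith, by omega, ?_, ?_⟩
    · unfold aa
      linarith
    · unfold aa
      have h1 : (8 / c : ℝ) * X = 2 * (4 / c * X) := by ring
      have h2 : 0 ≤ lam * Real.log (gg lam n) := by positivity
      rw [h1]
      linarith

/-- the sets of exponents -/
def EE (lam Lam : ℝ) (m : ℕ) (T : ℝ) : Set ℝ :=
  {x | ∃ k ∈ GK lam Lam m, aa lam k + 1 / 4 < Real.exp (T * x) ∧
    Real.exp (T * x) < aa lam k + 3 / 4}

theorem EE_meas (lam Lam : ℝ) (m : ℕ) (T : ℝ) : MeasurableSet (EE lam Lam m T) := by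
  have : EE lam Lam m T = ⋃ k ∈ GK lam Lam m, {x : ℝ | aa lam k + 1 / 4 < Real.exp (T * x) ∧
    Real.exp (T * x) < aa lam k + 3 / 4} := by
    ext x
    simp only [EE, Set.mem_ofPred_eq, Set.mem_iUnion, exists_prop]
  rw [this]
  refine MeasurableSet.biUnion (Set.to_countable _) fun k _ => ?_
  exact (measurableSet_lt (f := fun _ : ℝ => aa lam k + 1 / 4) (g := fun x : ℝ => Real.exp (T * x))
    measurable_const (by fun_prop)).inter
    (measurableSet_lt (f := fun x : ℝ => Real.exp (T * x)) (g := fun _ : ℝ => aa lam k + 3 / 4)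
      (by fun_prop) measurable_const)

theorem EE_sub (lam Lam : ℝ) (m : ℕ) (T x : ℝ) (hx : x ∈ EE lam Lam m T) :
    Q lam Lam m (Real.exp (T * x)) := by
  obtain ⟨k, hk, h1, h2⟩ := hx
  exact hk _ h1 h2

theorem blk_meas (lam Lam : ℝ) (m : ℕ) (hlam : 0 < lam) (D X T : ℝ) (hD : 1 < D) (hX : 0 < X)
    (hT : 0 < T) (K : Finset ℕ) (hK : X ≤ K.card)
    (h : ∀ k ∈ K, k ∈ GK lam Lam m ∧ 2 * lam ≤ k ∧ 0 < k ∧ X ≤ aa lam k ∧
      aa lam k + 1 ≤ D * X) :
    ENNReal.ofReal (1 / (2 * T * D)) ≤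
      volume (Set.Ico (Real.log X / T) (Real.log X / T + Real.log D / T) ∩ EE lam Lam m T) := by
  classical
  obtain ⟨U, hU⟩ : ∃ U : ℕ → Set ℝ, U = fun k : ℕ =>
    Set.Ioo (Real.log (aa lam k + 1 / 4) / T) (Real.log (aa lam k + 3 / 4) / T) := ⟨_, rfl⟩
  have hpos : ∀ k ∈ K, 0 < aa lam k := fun k hk => lt_of_lt_of_le hX (h k hk).2.2.2.1
  have hsub : (⋃ k ∈ K, U k) ⊆
      Set.Ico (Real.log X / T) (Real.log X / T + Real.log D / T) ∩ EE lam Lam m T := by
    intro x hx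
    rw [Set.mem_iUnion₂] at hx
    obtain ⟨k, hk, hx⟩ := hx
    rw [hU] at hx
    obtain ⟨hx1, hx2⟩ := hx
    obtain ⟨b1, b2, b3, b4, b5⟩ := h k hk
    have hp := hpos k hk
    refine ⟨⟨?_, ?_⟩, k, b1, ?_, ?_⟩
    · refine le_trans ?_ hx1.le
      gcongr
      linarith
    · refine lt_of_lt_of_le hx2 ?_
      rw [← add_div, ← Real.log_mul hX.ne' (by linarith)]
      gcongr
      linarith
    · rw [← Real.log_lt_iff_lt_exp (by linarith)]
      rw [div_lt_iff₀ hT] at hx1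
      linarith
    · rw [← Real.lt_log_iff_exp_lt (by linarith)]
      rw [lt_div_iff₀ hT] at hx2
      linarith
  have hdisj : Set.PairwiseDisjoint (K : Set ℕ) U := by
    have key : ∀ k ∈ K, ∀ k' ∈ K, k < k' → Disjoint (U k) (U k') := by
      intro k hk k' hk' hlt
      rw [Set.disjoint_left]
      intro x hx hx'
      rw [hU] at hx hx'
      obtain ⟨b1, b2, b3, b4, b5⟩ := h k hk
      have h1 := aa_spaced lam hlam k k' b2 b3 hlt
      have h2 : Real.log (aa lam k + 3 / 4) / T ≤ Real.log (aa lam k' + 1 / 4) / T := by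
        have := hpos k hk
        gcongr
      exact absurd (hx.2.trans_le h2) (not_lt.2 hx'.1.le)
    intro k hk k' hk' hne
    rcases lt_or_gt_of_ne hne with h1 | h1
    · exact key k hk k' hk' h1
    · exact (key k' hk' k hk h1).symm
  refine le_trans ?_ (measure_mono hsub)
  rw [measure_biUnion_finset hdisj (fun k _ => by rw [hU]; exact measurableSet_Ioo)]
  have hlow : ∀ k ∈ K, ENNReal.ofReal (1 / (2 * T * D * X)) ≤ volume (U k) := by
    intro k hk
    obtain ⟨b1, b2, b3, b4, b5⟩ := h k hk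
    have hp := hpos k hk
    rw [hU]
    simp only
    rw [Real.volume_Ioo]
    apply ENNReal.ofReal_le_ofReal
    rw [← sub_div, div_le_div_iff₀ (by positivity) hT]
    have h1 : 1 - (aa lam k + 1 / 4) / (aa lam k + 3 / 4) ≤
        Real.log (aa lam k + 3 / 4) - Real.log (aa lam k + 1 / 4) := by
      rw [← Real.log_div (by linarith) (by linarith)]
      have h2 := Real.one_sub_inv_le_log_of_pos
        (show 0 < (aa lam k + 3 / 4) / (aa lam k + 1 / 4) by positivity)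
      rw [inv_div] at h2
      exact h2
    have h3 : 1 / (2 * (D * X)) ≤ 1 - (aa lam k + 1 / 4) / (aa lam k + 3 / 4) := by
      rw [one_sub_div (by linarith), div_le_div_iff₀ (by positivity) (by linarith)]
      linarith
    have h4 := h3.trans h1
    rw [div_le_iff₀ (by positivity)] at h4
    nlinarith
  calc ENNReal.ofReal (1 / (2 * T * D))
      ≤ ENNReal.ofReal (K.card * (1 / (2 * T * D * X))) := by
        apply ENNReal.ofReal_le_ofReal
        have h1 : 1 / (2 * T * D) = X * (1 / (2 * T * D * X)) := by field_simp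
        rw [h1]
        gcongr
    _ = ∑ k ∈ K, ENNReal.ofReal (1 / (2 * T * D * X)) := by
        rw [Finset.sum_const, nsmul_eq_mul, ENNReal.ofReal_mul (Nat.cast_nonneg _),
          ENNReal.ofReal_natCast]
    _ ≤ ∑ k ∈ K, volume (U k) := Finset.sum_le_sum hlow

end Pool.Agent.H749R6.PW
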