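import Pool.Agent.H749R6.PW.Win
import Pool.Agent.H749R6.CM.Fin

/-! Powers of almost every base: assembly. -/

set_option autoImplicit false

namespace Pool.Agent.H749R6.PW

open MeasureTheory Filter

theorem bases : ∀ (lam Lam : ℝ) (m : ℕ), 0 < lam → 0 ≤ Lam → ∃ c : ℝ, 0 < c ∧
    ∀ t : ℕ → ℝ, Tendsto t atTop atTop → ∀ᵐ a : ℝ, 1 < a → ∃ᶠ N : ℕ in atTop, c * N ≤
      ({n : ℕ | n < N ∧
        {p : ℕ | p.Prime ∧ a ^ t n < p ∧ (p : ℝ) ≤ a ^ t n + lam * Real.log (a ^ t n)}.ncard = m ∧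
        ∀ p : ℕ, p.Prime → a ^ t n - Lam * Real.log (a ^ t n) < p → a ^ t n < p}.ncard : ℝ) :=
  fun lam Lam m h1 h2 => main_base Pool.Agent.H749R6.CM.pois lam Lam m h1 h2

end Pool.Agent.H749R6.PW
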