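import Mathlib
import Pool.Agent.H749R6.PW.Blk
import Pool.Agent.H749R6.MG.Dens

/-! Windows of exponents; powers of almost every base. -/

set_option autoImplicit false

namespace Pool.Agent.H749R6.PW

open MeasureTheory Filter Topology
open Pool.Agent.H749R6.MG (av upper_density_const)

theorem iter (E : Set ℝ) (hE : MeasurableSet E) (w l a : ℝ) (hl : 0 < l)
    (h : ∀ s, w ≤ s → ENNReal.ofReal a ≤ volume (Set.Ico s (s + l) ∩ E)) : ∀ J : ℕ,
    (J : ENNReal) * ENNReal.ofReal a ≤ volume (Set.Ico w (w + J * l) ∩ E) := by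
  intro J
  induction J with
  | zero => simp
  | succ J ih =>
    have hJ : w ≤ w + J * l := by
      have : 0 ≤ (J : ℝ) * l := by positivity
      linarith
    have h1 := h (w + J * l) hJ
    have hdisj : Disjoint (Set.Ico w (w + J * l) ∩ E) (Set.Ico (w + J * l) (w + J * l + l) ∩ E) := by
      rw [Set.disjoint_left]
      rintro x ⟨⟨_, hx⟩, _⟩ ⟨⟨hx', _⟩, _⟩
      exact absurd hx (not_lt.2 hx')
    have hsub : (Set.Ico w (w + J * l) ∩ E) ∪ (Set.Ico (w + J * l) (w + J * l + l) ∩ E) ⊆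
        Set.Ico w (w + ((J + 1 : ℕ) : ℝ) * l) ∩ E := by
      rintro x (⟨⟨hx1, hx2⟩, hx3⟩ | ⟨⟨hx1, hx2⟩, hx3⟩)
      · refine ⟨⟨hx1, ?_⟩, hx3⟩
        push_cast
        linarith
      · refine ⟨⟨hJ.trans hx1, ?_⟩, hx3⟩
        push_cast
        linarith
    refine le_trans ?_ (measure_mono hsub)
    rw [measure_union hdisj (measurableSet_Ico.inter hE)]
    push_cast
    rw [add_mul, one_mul]
    exact add_le_add ih h1

theorem window
    (hpois : ∀ (lam Lam : ℝ) (m : ℕ), 0 < lam → 0 ≤ Lam → ∃ c : ℝ, 0 < c ∧ ∃ N₀ : ℕ, ∀ N : ℕ,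
      N₀ ≤ N → c * N ≤ ({n : ℕ | n ∈ Finset.Icc 1 N ∧
        Nat.primeCounting ⌊(n : ℝ) + lam * Real.log n⌋₊ = Nat.primeCounting n + m ∧
        Nat.primeCounting n = Nat.primeCounting ⌊(n : ℝ) - Lam * Real.log n⌋₊}.ncard : ℝ))
    (lam Lam : ℝ) (m : ℕ) (hlam : 0 < lam) (hLam : 0 ≤ Lam) :
    ∃ c₀ : ℝ, 0 < c₀ ∧ ∀ t : ℕ → ℝ, Tendsto t atTop atTop → ∀ w δ : ℝ, 0 < w → 0 < δ →
      ∀ᶠ n in atTop, ENNReal.ofReal (c₀ * (δ * w)) ≤
        volume (Set.Icc w ((1 + δ) * w) ∩ EE lam Lam m (t n)) := by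
  obtain ⟨D, hD, hev⟩ := blk hpois lam Lam m hlam hLam
  obtain ⟨X₁, hX₁⟩ := eventually_atTop.1 hev
  have hlD : 0 < Real.log D := Real.log_pos hD
  refine ⟨1 / (4 * D * Real.log D), by positivity, fun t ht w δ hw hδ => ?_⟩
  have hδw : 0 < δ * w := by positivity
  have e1 : ∀ᶠ n in atTop, X₁ ≤ Real.exp (t n * w) :=
    (Real.tendsto_exp_atTop.comp (ht.atTop_mul_const hw)).eventually_ge_atTop _
  filter_upwards [e1, ht.eventually_gt_atTop 0,
    ht.eventually_ge_atTop (2 * Real.log D / (δ * w))] with n h1 hT h3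
  obtain ⟨T, hTd⟩ : ∃ T, T = t n := ⟨_, rfl⟩
  rw [← hTd] at h1 hT h3 ⊢
  obtain ⟨l, hl⟩ : ∃ l, l = Real.log D / T := ⟨_, rfl⟩
  have hl0 : 0 < l := hl ▸ div_pos hlD hT
  have hb : ∀ s, w ≤ s → ENNReal.ofReal (1 / (2 * T * D)) ≤
      volume (Set.Ico s (s + l) ∩ EE lam Lam m T) := by
    intro s hs
    have h4 : X₁ ≤ Real.exp (T * s) := h1.trans (Real.exp_le_exp.2 (by gcongr))
    obtain ⟨K, hK1, hK2⟩ := hX₁ _ h4
    have h5 := blk_meas lam Lam m hlam D _ T hD (Real.exp_pos (T * s)) hT K hK1 hK2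
    rw [Real.log_exp, mul_div_cancel_left₀ _ hT.ne', ← hl] at h5
    exact h5
  have h6 := iter (EE lam Lam m T) (EE_meas lam Lam m T) w l _ hl0 hb ⌊δ * w / l⌋₊
  have h7 : (⌊δ * w / l⌋₊ : ℝ) * l ≤ δ * w := by
    have := Nat.floor_le (show 0 ≤ δ * w / l by positivity)
    rwa [le_div_iff₀ hl0] at this
  have h8 : volume (Set.Ico w (w + (⌊δ * w / l⌋₊ : ℝ) * l) ∩ EE lam Lam m T) ≤
      volume (Set.Icc w ((1 + δ) * w) ∩ EE lam Lam m T) := by
    apply measure_mono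
    rintro x ⟨⟨hx1, hx2⟩, hx3⟩
    exact ⟨⟨hx1, by linarith⟩, hx3⟩
  refine le_trans ?_ (h6.trans h8)
  rw [← ENNReal.ofReal_natCast, ← ENNReal.ofReal_mul (Nat.cast_nonneg _)]
  apply ENNReal.ofReal_le_ofReal
  have h9 := Nat.lt_floor_add_one (δ * w / l)
  have h10 : δ * w / l = δ * w * T / Real.log D := by
    rw [hl]
    field_simp
  rw [h10] at h9 ⊢
  have h11 : δ * w * T / Real.log D - 1 ≤ ⌊δ * w * T / Real.log D⌋₊ := by linarith
  have h12 : 1 ≤ δ * w * T / Real.log D / 2 := by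
    rw [div_le_iff₀ hδw] at h3
    rw [le_div_iff₀ (by norm_num), le_div_iff₀ hlD]
    linarith
  calc 1 / (4 * D * Real.log D) * (δ * w) = (δ * w * T / Real.log D / 2) * (1 / (2 * T * D)) := by
        field_simp
        ring
    _ ≤ ⌊δ * w * T / Real.log D⌋₊ * (1 / (2 * T * D)) := by
        gcongr
        linarith

theorem main_exp
    (hpois : ∀ (lam Lam : ℝ) (m : ℕ), 0 < lam → 0 ≤ Lam → ∃ c : ℝ, 0 < c ∧ ∃ N₀ : ℕ, ∀ N : ℕ,
      N₀ ≤ N → c * N ≤ ({n : ℕ | n ∈ Finset.Icc 1 N ∧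
        Nat.primeCounting ⌊(n : ℝ) + lam * Real.log n⌋₊ = Nat.primeCounting n + m ∧
        Nat.primeCounting n = Nat.primeCounting ⌊(n : ℝ) - Lam * Real.log n⌋₊}.ncard : ℝ))
    (lam Lam : ℝ) (m : ℕ) (hlam : 0 < lam) (hLam : 0 ≤ Lam) :
    ∃ c : ℝ, 0 < c ∧ ∀ t : ℕ → ℝ, Tendsto t atTop atTop → ∀ᵐ x : ℝ, 0 < x →
      ∃ᶠ N : ℕ in atTop, c * N ≤
        ({n : ℕ | n < N ∧ Q lam Lam m (Real.exp (t n * x))}.ncard : ℝ) := by
  classical
  obtain ⟨c₀, hc₀, h⟩ := window hpois lam Lam m hlam hLam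
  refine ⟨c₀ / 2, by positivity, fun t ht => ?_⟩
  filter_upwards [upper_density_const _ (fun n => EE_meas lam Lam m (t n)) c₀ hc₀
    (h t ht)] with x hx hx0
  refine ((hx hx0).and_eventually (eventually_gt_atTop 0)).mono ?_
  rintro N ⟨h1, h2⟩
  have hN : (0 : ℝ) < N := by exact_mod_cast h2
  unfold av at h1
  rw [le_div_iff₀ hN] at h1
  refine h1.trans ?_
  have h3 : ∑ n ∈ Finset.range N, (EE lam Lam m (t n)).indicator (fun _ => (1 : ℝ)) x =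
      (((Finset.range N).filter (fun n => x ∈ EE lam Lam m (t n))).card : ℝ) := by
    rw [Finset.card_filter]
    push_cast
    refine Finset.sum_congr rfl fun n _ => ?_
    by_cases hf : x ∈ EE lam Lam m (t n)
    · rw [if_pos hf, Set.indicator_of_mem hf]
    · rw [if_neg hf, Set.indicator_of_notMem hf]
  rw [h3]
  apply Nat.cast_le.2
  rw [← Set.ncard_coe_finset]
  refine Set.ncard_le_ncard ?_ ((Set.finite_Iio N).subset fun n hn => hn.1)
  intro n hn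
  rw [Finset.mem_coe, Finset.mem_filter, Finset.mem_range] at hn
  exact ⟨hn.1, EE_sub lam Lam m (t n) x hn.2⟩

/-- from exponents to bases -/
theorem transfer (P : ℝ → Prop) (h : ∀ᵐ x : ℝ, 0 < x → P x) :
    ∀ᵐ a : ℝ, 1 < a → P (Real.log a) := by
  rw [ae_iff] at h ⊢
  have h1 : volume (Real.exp '' {x : ℝ | ¬ (0 < x → P x)}) = 0 :=
    addHaar_image_eq_zero_of_differentiableOn_of_addHaar_eq_zero volume
      (Real.differentiable_exp.differentiableOn) h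
  refine measure_mono_null ?_ h1
  intro a ha
  rw [Set.mem_ofPred_eq] at ha
  push Not at ha
  refine ⟨Real.log a, ?_, Real.exp_log (by linarith [ha.1])⟩
  rw [Set.mem_ofPred_eq]
  push Not
  exact ⟨Real.log_pos ha.1, ha.2⟩

theorem main_base
    (hpois : ∀ (lam Lam : ℝ) (m : ℕ), 0 < lam → 0 ≤ Lam → ∃ c : ℝ, 0 < c ∧ ∃ N₀ : ℕ, ∀ N : ℕ,
      N₀ ≤ N → c * N ≤ ({n : ℕ | n ∈ Finset.Icc 1 N ∧
        Nat.primeCounting ⌊(n : ℝ) + lam * Real.log n⌋₊ = Nat.primeCounting n + m ∧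
        Nat.primeCounting n = Nat.primeCounting ⌊(n : ℝ) - Lam * Real.log n⌋₊}.ncard : ℝ))
    (lam Lam : ℝ) (m : ℕ) (hlam : 0 < lam) (hLam : 0 ≤ Lam) :
    ∃ c : ℝ, 0 < c ∧ ∀ t : ℕ → ℝ, Tendsto t atTop atTop → ∀ᵐ a : ℝ, 1 < a →
      ∃ᶠ N : ℕ in atTop, c * N ≤
        ({n : ℕ | n < N ∧ Q lam Lam m (a ^ t n)}.ncard : ℝ) := by
  obtain ⟨c, hc, h⟩ := main_exp hpois lam Lam m hlam hLam
  refine ⟨c, hc, fun t ht => ?_⟩
  filter_upwards [transfer _ (h t ht)] with a ha ha1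
  refine (ha ha1).mono fun N hN => hN.trans (le_of_eq ?_)
  congr 2
  ext n
  have h1 : Real.exp (t n * Real.log a) = a ^ t n := by
    rw [Real.rpow_def_of_pos (by linarith), mul_comm]
  rw [Set.mem_ofPred_eq, Set.mem_ofPred_eq, h1]

end Pool.Agent.H749R6.PW
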